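import Mathlib
import Pool.Agent.Helper71.SnfDefs
import Pool.Agent.Helper71.SnfA2

/-!
Q2 of MP_e5b41c_gt: if `X` is a Tychonoff `k`-space with a regular `G_δ`-diagonal and `A_2(X)` is
snf-countable, then `A_3(X)` (indeed every `A_n(X)`) is snf-countable.
-/

open Pool.Agent.Helper71.Snf in
/-- Affirmative answer to Q2 (with `n = 3`), for all `n`. -/
theorem Pool.Agent.Results.MP_e5b41c_gt.SnfA2An.result.{u} (X : Type u) [TopologicalSpace X]
    [T35Space X] (hk : IsKSpace X) (hG : HasRegularGdeltaDiagonal X)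
    (h2 : SnfCountable (FreeAbTopGroupLE X 2)) (n : ℕ) : SnfCountable (FreeAbTopGroupLE X n) := by
  have : SequentialSpace X := sequential_of_kSpace hk hG
  exact main_A X h2 n
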