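import Mathlib
import Pool.Agent.Helper71.SnfDefs
import Pool.Agent.Helper71.SnfF2

/-!
Q1 of MP_e5b41c_gt: if `X` is a Tychonoff `k`-space with a regular `G_δ`-diagonal and `F_2(X)` is
snf-countable, then `F_3(X)` is snf-countable.
-/

open Pool.Agent.Helper71.Snf in
/-- Affirmative answer to Q1. -/
theorem Pool.Agent.Results.MP_e5b41c_gt.SnfF2F3.result.{u} (X : Type u) [TopologicalSpace X]
    [T35Space X] (hk : IsKSpace X) (hG : HasRegularGdeltaDiagonal X)
    (h2 : SnfCountable (FreeTopGroupLE X 2)) : SnfCountable (FreeTopGroupLE X 3) := by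
  have : SequentialSpace X := sequential_of_kSpace hk hG
  exact main_F X h2
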